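import Pool.Agent.Helper2.FR.Defs

/-!
# Block FX8a of project FR: the hyperbolic eigenbasis in dimension eight
-/

open Module

namespace FR

open MTP UN AV

section hyp61

variable {K : Type*} [Field K] {V : Type*} [AddCommGroup V] [Module K V] [FiniteDimensional K V]

/-- `S` is `h`-stable and the form is nondegenerate on `S` -/
private def St61 (b : LinearMap.BilinForm K V) (h : Module.End K V) (S : Submodule K V) : Prop :=
  (∀ v ∈ S, h v ∈ S) ∧ ∀ v ∈ S, v ≠ 0 → ∃ w ∈ S, b v w ≠ 0

private theorem eig_perp61 {b : LinearMap.BilinForm K V} {h : Module.End K V} (hh : IsSk b h) {u v : V} {l m : K}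
    (hu : h u = l • u) (hv : h v = m • v) (hlm : l + m ≠ 0) : b u v = 0 := by
  have h1 := hh u v
  rw [hu, hv, map_smul, map_smul, LinearMap.smul_apply, smul_eq_mul, smul_eq_mul] at h1
  have h2 : (l + m) * b u v = 0 := by linear_combination h1
  exact (mul_eq_zero.mp h2).resolve_left hlm

private theorem top61 {h : Module.End K V} [CharZero K] (hdiag : ⨆ q : ℚ, h.eigenspace (q : K) = ⊤) :
    ⨆ μ : K, h.eigenspace μ = ⊤ := by
  rw [eq_top_iff, ← hdiag]
  exact iSup_le fun q => le_iSup (fun μ : K => h.eigenspace μ) (q : K)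

private theorem dual61 [CharZero K] {b : LinearMap.BilinForm K V} {h : Module.End K V} (hs : ∀ v w, b v w = b w v)
    (hh : IsSk b h) (hdiag : ⨆ μ : K, h.eigenspace μ = ⊤) {S : Submodule K V} (hS : St61 b h S) {e : V} (he : e ∈ S)
    (he0 : e ≠ 0) {l : K} (hel : h e = l • e) (hee : b e e = 0) :
    ∃ f ∈ S, b e f = 1 ∧ b f f = 0 ∧ h f = (-l) • f := by
  have h1 : S = ⨆ μ : K, S ⊓ h.eigenspace μ := Submodule.eq_iSup_inf_genEigenspace 1 hS.1 hdiag
  obtain ⟨f, hf, hfe⟩ : ∃ f ∈ S ⊓ h.eigenspace (-l), b e f ≠ 0 := by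
    by_contra hcon
    push Not at hcon
    obtain ⟨w, hw, hbw⟩ := hS.2 e he he0
    apply hbw
    have h2 : S ≤ LinearMap.ker (b e) := by
      rw [h1]
      refine iSup_le fun μ v hv => ?_
      rw [LinearMap.mem_ker]
      by_cases hμ : l + μ = 0
      · apply hcon
        rw [← eq_neg_of_add_eq_zero_right hμ]
        exact hv
      · exact eig_perp61 hh hel (Module.End.mem_eigenspace_iff.mp hv.2) hμ
    exact h2 hw
  have hfl : h f = (-l) • f := Module.End.mem_eigenspace_iff.mp hf.2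
  obtain ⟨g, hgS, hgl, hge⟩ : ∃ g ∈ S, h g = (-l) • g ∧ b e g = 1 :=
    ⟨(b e f)⁻¹ • f, S.smul_mem _ hf.1, by rw [map_smul, hfl, smul_comm],
      by rw [map_smul, smul_eq_mul, inv_mul_cancel₀ hfe]⟩
  by_cases hl : l = 0
  · refine ⟨g - (b g g / 2) • e, S.sub_mem hgS (S.smul_mem _ he), ?_, ?_, ?_⟩
    · rw [map_sub, map_smul, hge, hee, smul_zero, sub_zero]
    · simp only [map_sub, map_smul, LinearMap.sub_apply, LinearMap.smul_apply, smul_eq_mul]
      rw [hee, hs g e, hge]
      ring
    · rw [map_sub, map_smul, hgl, hel, hl]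
      simp
  · refine ⟨g, hgS, hge, ?_, hgl⟩
    apply eig_perp61 hh hgl hgl
    intro h3
    apply hl
    have h4 : (2 : K) * l = 0 := by linear_combination -h3
    exact (mul_eq_zero.mp h4).resolve_left two_ne_zero

/-- the orthogonal complement in `S` of a hyperbolic pair -/
private def cp61 (b : LinearMap.BilinForm K V) (S : Submodule K V) (e f : V) : Submodule K V :=
  S ⊓ LinearMap.ker (b e) ⊓ LinearMap.ker (b f)

private theorem mem_cp61 {b : LinearMap.BilinForm K V} {S : Submodule K V} {e f v : V} :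
    v ∈ cp61 b S e f ↔ v ∈ S ∧ b e v = 0 ∧ b f v = 0 := by
  unfold cp61
  rw [Submodule.mem_inf, Submodule.mem_inf, LinearMap.mem_ker, LinearMap.mem_ker, and_assoc]

private theorem cp_st61 {b : LinearMap.BilinForm K V} {h : Module.End K V} (hs : ∀ v w, b v w = b w v)
    (hh : IsSk b h) {S : Submodule K V} (hS : St61 b h S) {e f : V} (he : e ∈ S) (hf : f ∈ S) {l m : K}
    (hel : h e = l • e) (hfm : h f = m • f) (hee : b e e = 0) (hef : b e f = 1) (hff : b f f = 0) :
    St61 b h (cp61 b S e f) := by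
  refine ⟨fun v hv => ?_, fun v hv hv0 => ?_⟩
  · rw [mem_cp61] at hv ⊢
    refine ⟨hS.1 v hv.1, ?_, ?_⟩
    · have h1 := hh e v
      rw [hel, map_smul, LinearMap.smul_apply, hv.2.1, smul_zero] at h1
      exact neg_eq_zero.mp h1.symm
    · have h1 := hh f v
      rw [hfm, map_smul, LinearMap.smul_apply, hv.2.2, smul_zero] at h1
      exact neg_eq_zero.mp h1.symm
  · rw [mem_cp61] at hv
    obtain ⟨w, hw, hvw⟩ := hS.2 v hv.1 hv0
    refine ⟨w - b f w • e - b e w • f, ?_, ?_⟩
    · rw [mem_cp61]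
      refine ⟨S.sub_mem (S.sub_mem hw (S.smul_mem _ he)) (S.smul_mem _ hf), ?_, ?_⟩
      · simp only [map_sub, map_smul, smul_eq_mul]
        rw [hee, hef]
        ring
      · simp only [map_sub, map_smul, smul_eq_mul]
        rw [hs f e, hef, hff]
        ring
    · simp only [map_sub, map_smul, smul_eq_mul]
      rw [hs v e, hv.2.1, hs v f, hv.2.2]
      simpa using hvw

private theorem ker_dim61 (S : Submodule K V) (φ : V →ₗ[K] K) :
    finrank K S ≤ finrank K (S ⊓ LinearMap.ker φ : Submodule K V) + 1 := by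
  have h1 := Submodule.finrank_sup_add_finrank_inf_eq S (LinearMap.ker φ)
  have h2 := LinearMap.finrank_range_add_finrank_ker φ
  have h3 : finrank K (LinearMap.range φ) ≤ 1 := by
    have := Submodule.finrank_le (LinearMap.range φ)
    rwa [finrank_self] at this
  have h4 : finrank K (S ⊔ LinearMap.ker φ : Submodule K V) ≤ finrank K V := Submodule.finrank_le _
  omega

private theorem cp_dim61 (b : LinearMap.BilinForm K V) (S : Submodule K V) (e f : V) :
    finrank K S ≤ finrank K (cp61 b S e f) + 2 := by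
  have h1 := ker_dim61 S (b e)
  have h2 := ker_dim61 (S ⊓ LinearMap.ker (b e)) (b f)
  unfold cp61
  omega

private theorem iso61 [CharZero K] [IsAlgClosed K] {b : LinearMap.BilinForm K V} {h : Module.End K V}
    (hs : ∀ v w, b v w = b w v)
    (hh : IsSk b h) (hdiag : ⨆ μ : K, h.eigenspace μ = ⊤) {S : Submodule K V} (hS : St61 b h S)
    (hd : 2 ≤ finrank K S) : ∃ e ∈ S, e ≠ 0 ∧ b e e = 0 ∧ ∃ l : K, h e = l • e := by
  have h1 : S = ⨆ μ : K, S ⊓ h.eigenspace μ := Submodule.eq_iSup_inf_genEigenspace 1 hS.1 hdiag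
  by_cases hex : ∃ μ : K, μ ≠ 0 ∧ S ⊓ h.eigenspace μ ≠ ⊥
  · obtain ⟨μ, hμ, hne⟩ := hex
    obtain ⟨e, he, he0⟩ := Submodule.exists_mem_ne_zero_of_ne_bot hne
    have hel : h e = μ • e := Module.End.mem_eigenspace_iff.mp he.2
    refine ⟨e, he.1, he0, ?_, μ, hel⟩
    apply eig_perp61 hh hel hel
    intro h3
    apply hμ
    have h4 : (2 : K) * μ = 0 := by linear_combination h3
    exact (mul_eq_zero.mp h4).resolve_left two_ne_zero
  · push Not at hex
    have h2 : S ≤ h.eigenspace 0 := by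
      rw [h1]
      refine iSup_le fun μ => ?_
      by_cases hμ : μ = 0
      · rw [hμ]; exact inf_le_right
      · rw [hex μ hμ]; exact bot_le
    have h3 : ∀ e ∈ S, h e = (0 : K) • e := fun e he => Module.End.mem_eigenspace_iff.mp (h2 he)
    obtain ⟨u, hu, hu0⟩ := Submodule.exists_mem_ne_zero_of_ne_bot (p := S) (by
      intro h4
      rw [h4, finrank_bot] at hd
      omega)
    obtain ⟨v, hv, hvu⟩ : ∃ v ∈ S, v ∉ Submodule.span K {u} := by
      by_contra hcon
      push Not at hcon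
      have h4 := Submodule.finrank_mono (hcon : S ≤ Submodule.span K {u})
      have h5 := finrank_span_singleton (K := K) hu0
      omega
    by_cases huu : b u u = 0
    · exact ⟨u, hu, hu0, huu, 0, h3 u hu⟩
    · obtain ⟨t, ht⟩ := IsAlgClosed.exists_eq_mul_self ((b u v) ^ 2 - b u u * b v v)
      -- root of `b u u * s ^ 2 + 2 * b u v * s + b v v`
      set s : K := (t - b u v) / b u u with hsd
      have h5 : s * b u u = t - b u v := by
        rw [hsd, div_mul_cancel₀ _ huu]
      have hroot : b u u * s ^ 2 + 2 * b u v * s + b v v = 0 := by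
        have h6 : b u u * (b u u * s ^ 2 + 2 * b u v * s + b v v) = 0 := by
          linear_combination (s * b u u + t + b u v) * h5 - ht
        exact (mul_eq_zero.mp h6).resolve_left huu
      refine ⟨v + s • u, S.add_mem hv (S.smul_mem _ hu), ?_, ?_, 0, h3 _ (S.add_mem hv (S.smul_mem _ hu))⟩
      · intro h6
        apply hvu
        rw [Submodule.mem_span_singleton]
        refine ⟨-s, ?_⟩
        rw [neg_smul]
        exact (eq_neg_of_add_eq_zero_left h6).symm
      · simp only [map_add, map_smul, LinearMap.add_apply, LinearMap.smul_apply, smul_eq_mul]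
        rw [hs v u]
        linear_combination hroot

end hyp61

section

variable {K : Type*} [Field K] [CharZero K] [IsAlgClosed K] {W₁ : Type*} [AddCommGroup W₁]
  [Module K W₁] [FiniteDimensional K W₁] {b₁ : LinearMap.BilinForm K W₁} {σ₁ : K}

/-- FX8: the eigenbasis. -/
theorem exists_hyp8 {N h : Module.End K W₁} (hb1 : b₁.Nondegenerate)
    (ha1 : ∀ v w, b₁ v w = b₁ w v) (hd1 : finrank K W₁ = 8) (hN : IsSk b₁ N) (hh : IsSk b₁ h)
    (hNN : N * N = 0) (hr : rk N = 2) (hσ : h * N = σ₁ • N)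
    (hdiag : ⨆ q : ℚ, h.eigenspace (q : K) = ⊤) :
    ∃ (e f : Fin 4 → W₁) (x y : K), (∀ i j, b₁ (e i) (e j) = 0) ∧ (∀ i j, b₁ (f i) (f j) = 0) ∧
      (∀ i j, b₁ (e i) (f j) = if i = j then 1 else 0) ∧
      (∀ i, N (e i) = 0) ∧ N (f 2) = 0 ∧ N (f 3) = 0 ∧
      (∀ i, N (f i) ∈ Submodule.span K {e 0, e 1}) ∧
      h (e 0) = σ₁ • e 0 ∧ h (e 1) = σ₁ • e 1 ∧ h (e 2) = x • e 2 ∧ h (e 3) = y • e 3 ∧
      h (f 0) = (-σ₁) • f 0 ∧ h (f 1) = (-σ₁) • f 1 ∧ h (f 2) = (-x) • f 2 ∧
      h (f 3) = (-y) • f 3 := by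
  have hdg := top61 hdiag
  have hNN' : ∀ v, N (N v) = 0 := fun v => by
    have := LinearMap.congr_fun hNN v
    simpa using this
  have hhN : ∀ v, h (N v) = σ₁ • N v := fun v => by
    have := LinearMap.congr_fun hσ v
    simpa using this
  have hiso : ∀ v w, b₁ (N v) (N w) = 0 := by
    intro v w
    rw [hN, hNN', map_zero, neg_zero]
  have hrN : finrank K (LinearMap.range N) = 2 := hr
  -- the whole space
  have hS0 : St61 b₁ h ⊤ := by
    refine ⟨fun _ _ => Submodule.mem_top, fun v _ hv => ?_⟩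
    by_contra hcon
    push Not at hcon
    exact hv (hb1.1 v fun w => hcon w Submodule.mem_top)
  have hd0 : 8 ≤ finrank K (⊤ : Submodule K W₁) := by rw [finrank_top, hd1]
  -- first pair
  obtain ⟨e0, ⟨u0, rfl⟩, he00⟩ := Submodule.exists_mem_ne_zero_of_ne_bot (p := LinearMap.range N) (by
    intro h4
    rw [h4, finrank_bot] at hrN
    omega)
  obtain ⟨f0, -, hef0, hff0, hf0⟩ := dual61 ha1 hh hdg hS0 Submodule.mem_top he00 (hhN u0) (hiso _ _)
  have hS1 := cp_st61 ha1 hh hS0 (e := N u0) (f := f0) Submodule.mem_top Submodule.mem_top (hhN u0) hf0 (hiso _ _)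
    hef0 hff0
  have hd1' := cp_dim61 b₁ ⊤ (N u0) f0
  set S1 := cp61 b₁ ⊤ (N u0) f0 with hS1d
  -- second pair
  obtain ⟨e1, he1, he10⟩ := Submodule.exists_mem_ne_zero_of_ne_bot
    (p := LinearMap.range N ⊓ LinearMap.ker (b₁ f0)) (by
    intro h4
    have := ker_dim61 (LinearMap.range N) (b₁ f0)
    rw [h4, finrank_bot] at this
    omega)
  obtain ⟨⟨u1, rfl⟩, hfe1⟩ := he1
  rw [SetLike.mem_coe, LinearMap.mem_ker] at hfe1
  have he1S : N u1 ∈ S1 := by
    rw [hS1d, mem_cp61]
    exact ⟨Submodule.mem_top, hiso _ _, hfe1⟩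
  obtain ⟨f1, hf1S, hef1, hff1, hf1⟩ := dual61 ha1 hh hdg hS1 he1S he10 (hhN u1) (hiso _ _)
  have hS2 := cp_st61 ha1 hh hS1 he1S hf1S (hhN u1) hf1 (hiso _ _) hef1 hff1
  have hd2 := cp_dim61 b₁ S1 (N u1) f1
  set S2 := cp61 b₁ S1 (N u1) f1 with hS2d
  -- third pair
  obtain ⟨e2, he2S, he20, hee2, x, he2⟩ := iso61 ha1 hh hdg hS2 (by omega)
  obtain ⟨f2, hf2S, hef2, hff2, hf2⟩ := dual61 ha1 hh hdg hS2 he2S he20 he2 hee2
  have hS3 := cp_st61 ha1 hh hS2 he2S hf2S he2 hf2 hee2 hef2 hff2
  have hd3 := cp_dim61 b₁ S2 e2 f2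
  set S3 := cp61 b₁ S2 e2 f2 with hS3d
  -- fourth pair
  obtain ⟨e3, he3S, he30, hee3, y, he3⟩ := iso61 ha1 hh hdg hS3 (by omega)
  obtain ⟨f3, hf3S, hef3, hff3, hf3⟩ := dual61 ha1 hh hdg hS3 he3S he30 he3 hee3
  -- `range N` is spanned by `e0`, `e1`
  have hspan : LinearMap.range N ≤ Submodule.span K {N u0, N u1} := by
    have hle : Submodule.span K {N u0, N u1} ≤ LinearMap.range N := by
      rw [Submodule.span_le]
      rintro _ (rfl | rfl)
      · exact ⟨u0, rfl⟩
      · exact ⟨u1, rfl⟩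
    have hli : LinearIndependent K ![N u0, N u1] := by
      rw [LinearIndependent.pair_iff]
      intro s t hst
      have h1 := congrArg (b₁ f0) hst
      rw [map_add, map_smul, map_smul, map_zero, hfe1, ha1 f0, hef0] at h1
      have hs0 : s = 0 := by simpa using h1
      rw [hs0, zero_smul, zero_add] at hst
      exact ⟨hs0, (smul_eq_zero.mp hst).resolve_right he10⟩
    have hfr : finrank K (Submodule.span K {N u0, N u1}) = 2 := by
      have := finrank_span_eq_card hli
      have hrange : Set.range ![N u0, N u1] = {N u0, N u1} := by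
        ext z
        simp only [Set.mem_range, Fin.exists_fin_two, Matrix.cons_val_zero, Matrix.cons_val_one,
          Set.mem_insert_iff, Set.mem_singleton_iff]
        constructor
        · rintro (h | h)
          · exact Or.inl h.symm
          · exact Or.inr h.symm
        · rintro (h | h)
          · exact Or.inl h.symm
          · exact Or.inr h.symm
      rw [hrange, Fintype.card_fin] at this
      exact this
    exact (Submodule.eq_of_le_of_finrank_le hle (by rw [hfr, hrN])).ge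
  -- `S2` is in the kernel of `N`
  have hS2mem : ∀ v, v ∈ S2 → b₁ (N u0) v = 0 ∧ b₁ f0 v = 0 ∧ b₁ (N u1) v = 0 ∧ b₁ f1 v = 0 := by
    intro v hv
    rw [hS2d, mem_cp61, hS1d, mem_cp61] at hv
    exact ⟨hv.1.2.1, hv.1.2.2, hv.2.1, hv.2.2⟩
  have hS3mem : ∀ v, v ∈ S3 → v ∈ S2 ∧ b₁ e2 v = 0 ∧ b₁ f2 v = 0 := by
    intro v hv
    rw [hS3d, mem_cp61] at hv
    exact hv
  have hker : ∀ v ∈ S2, N v = 0 := by
    intro v hv
    obtain ⟨h1, -, h2, -⟩ := hS2mem v hv
    apply hb1.1
    intro w
    have h3 : b₁ (N w) v = 0 := by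
      have h4 : LinearMap.range N ≤ LinearMap.ker (b₁.flip v) := by
        refine hspan.trans ?_
        rw [Submodule.span_le]
        rintro _ (rfl | rfl)
        · exact h1
        · exact h2
      exact h4 ⟨w, rfl⟩
    rw [ha1, ← neg_eq_zero, ← hN, h3]
  have he3S2 := (hS3mem e3 he3S).1
  have hf3S2 := (hS3mem f3 hf3S).1
  obtain ⟨a1, a2, a3, a4⟩ := hS2mem e2 he2S
  obtain ⟨b1', b2', b3', b4'⟩ := hS2mem f2 hf2S
  obtain ⟨c1, c2, c3, c4⟩ := hS2mem e3 he3S2
  obtain ⟨d1, d2, d3, d4⟩ := hS2mem f3 hf3S2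
  obtain ⟨-, g1, g2⟩ := hS3mem e3 he3S
  obtain ⟨-, k1, k2⟩ := hS3mem f3 hf3S
  have hf1m : b₁ (N u0) f1 = 0 ∧ b₁ f0 f1 = 0 := by
    rw [hS1d, mem_cp61] at hf1S
    exact hf1S.2
  obtain ⟨m1, m2⟩ := hf1m
  refine ⟨![N u0, N u1, e2, e3], ![f0, f1, f2, f3], x, y, ?_, ?_, ?_, ?_, hker _ hf2S, hker _ hf3S2, ?_, hhN u0, hhN u1,
    he2, he3, hf0, hf1, hf2, hf3⟩
  · intro i j
    fin_cases i <;> fin_cases j <;>
      first
        | exact hiso _ _
        | exact hee2
        | exact hee3
        | exact a1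
        | exact a3
        | exact c1
        | exact c3
        | exact g1
        | exact (ha1 _ _).trans a1
        | exact (ha1 _ _).trans a3
        | exact (ha1 _ _).trans c1
        | exact (ha1 _ _).trans c3
        | exact (ha1 _ _).trans g1
  · intro i j
    fin_cases i <;> fin_cases j <;>
      first
        | exact hff0
        | exact hff1
        | exact hff2
        | exact hff3
        | exact m2
        | exact b2'
        | exact b4'
        | exact d2
        | exact d4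
        | exact k2
        | exact (ha1 _ _).trans m2
        | exact (ha1 _ _).trans b2'
        | exact (ha1 _ _).trans b4'
        | exact (ha1 _ _).trans d2
        | exact (ha1 _ _).trans d4
        | exact (ha1 _ _).trans k2
  · intro i j
    fin_cases i <;> fin_cases j
    · exact hef0
    · exact m1
    · exact b1'
    · exact d1
    · exact (ha1 _ _).trans hfe1
    · exact hef1
    · exact b3'
    · exact d3
    · exact (ha1 _ _).trans a2
    · exact (ha1 _ _).trans a4
    · exact hef2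
    · exact k1
    · exact (ha1 _ _).trans c2
    · exact (ha1 _ _).trans c4
    · exact (ha1 _ _).trans g2
    · exact hef3
  · intro i
    fin_cases i
    · exact hNN' u0
    · exact hNN' u1
    · exact hker _ he2S
    · exact hker _ he3S2
  · intro i
    exact hspan ⟨_, rfl⟩

end

end FR
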